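import Mathlib

set_option autoImplicit false

/-!
# Infinitely many orbits of maximal tori in `{(h₁, h₂, h₃, h₄) : h₁ h₂ h₃ h₄ = 1} ⊆ GL₂⁴`

For two maximal tori `D₁ ≠ D₂` of `GL₂` the group of all `(a, b, b⁻¹ z, a⁻¹ z⁻¹)` with `a ∈ D₁`,
`b ∈ D₂` and `z` a scalar is a maximal torus contained in `X`. If the involutions of `PGL₂` given by
`D₁` and `D₂` have a product of even order `m`, then `m` is an invariant of the torus under all
automorphisms of the abstract group `GL₂⁴` which preserve `X`.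
-/

namespace Pool.Agent.Results.MP_629379_al.InfinitelyManyOrbits

open Matrix

universe u

section Defs

variable {K : Type u} [Field K] {n r : ℕ}

/-- The coordinates of a point `h` of `GL_n^r`: the matrix entries of the `h i` and the inverses of
the determinants of the `h i`. -/
noncomputable def coord (h : Fin r → GL (Fin n) K) : Fin r × Option (Fin n × Fin n) → K
  | (i, some (a, b)) => (h i : Matrix (Fin n) (Fin n) K) a b
  | (i, none) => ((h i : Matrix (Fin n) (Fin n) K).det)⁻¹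

/-- Regular functions on the variety `GL_n^r`: polynomials in the coordinates. -/
def IsRegular (f : (Fin r → GL (Fin n) K) → K) : Prop :=
  ∃ p : MvPolynomial (Fin r × Option (Fin n × Fin n)) K, ∀ h, f h = MvPolynomial.eval (coord h) p

/-- Zariski closed subsets of `GL_n^r`. -/
def IsZariskiClosed (Y : Set (Fin r → GL (Fin n) K)) : Prop :=
  ∃ S : Set (MvPolynomial (Fin r × Option (Fin n × Fin n)) K),
    ∀ h, h ∈ Y ↔ ∀ p ∈ S, MvPolynomial.eval (coord h) p = 0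

/-- The automorphism `σ` of the group `GL_n^r` is an automorphism of the algebraic group: the matrix
entries of `σ` and of its inverse are regular functions. -/
def IsAlgebraic (σ : (Fin r → GL (Fin n) K) ≃* (Fin r → GL (Fin n) K)) : Prop :=
  (∀ i a b, IsRegular fun h => (σ h i : Matrix (Fin n) (Fin n) K) a b) ∧
    (∀ i a b, IsRegular fun h => (σ.symm h i : Matrix (Fin n) (Fin n) K) a b)

/-- Regular functions on the torus `G_m^d`: polynomials in the coordinates and their inverses. -/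
def IsLaurent {d : ℕ} (f : (Fin d → Kˣ) → K) : Prop :=
  ∃ p : MvPolynomial (Fin d ⊕ Fin d) K, ∀ z, f z =
    MvPolynomial.eval (Sum.elim (fun j => (z j : K)) (fun j => (((z j)⁻¹ : Kˣ) : K))) p

/-- The subgroup `T` of `GL_n^r` is a torus: it is Zariski closed and there is an isomorphism of
algebraic groups from some `G_m^d` onto `T`. -/
def IsTorus (T : Subgroup (Fin r → GL (Fin n) K)) : Prop :=
  IsZariskiClosed (T : Set (Fin r → GL (Fin n) K)) ∧
    ∃ (d : ℕ) (e : (Fin d → Kˣ) ≃* T),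
      (∀ i a b, IsLaurent fun z =>
        ((e z : Fin r → GL (Fin n) K) i : Matrix (Fin n) (Fin n) K) a b) ∧
      (∀ j, ∃ f : (Fin r → GL (Fin n) K) → K, IsRegular f ∧
        ∀ t : T, ((e.symm t j : Kˣ) : K) = f (t : Fin r → GL (Fin n) K))

/-- The matrix `g` is semisimple, that is diagonalizable. -/
def IsSemisimpleMat (g : GL (Fin n) K) : Prop :=
  ∃ (P : GL (Fin n) K) (D : Fin n → K),
    (g : Matrix (Fin n) (Fin n) K) =
      (P : Matrix (Fin n) (Fin n) K) * diagonal D * ((P⁻¹ : GL (Fin n) K) : Matrix _ _ K)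

/-- The variety `X` of all `(h₁, ..., h_r)` with `M₁ h₁ M₂ h₂ ⋯ M_r h_r M_{r+1} = 1`. -/
def X (M : Fin (r + 1) → GL (Fin n) K) : Set (Fin r → GL (Fin n) K) :=
  {h | (List.ofFn fun i : Fin r => M i.castSucc * h i).prod * M (Fin.last r) = 1}

/-- The stabilizer `H` of `X` in the group of automorphisms of the algebraic group `GL_n^r`. -/
def stabX (M : Fin (r + 1) → GL (Fin n) K) :
    Set ((Fin r → GL (Fin n) K) ≃* (Fin r → GL (Fin n) K)) :=
  {σ | IsAlgebraic σ ∧ σ '' X M = X M}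

/-- The maximal tori among the tori contained in the set `Y`. -/
def IsMaximalTorusIn (Y : Set (Fin r → GL (Fin n) K)) (T : Subgroup (Fin r → GL (Fin n) K)) :
    Prop :=
  (IsTorus T ∧ (T : Set (Fin r → GL (Fin n) K)) ⊆ Y) ∧
    ∀ T' : Subgroup (Fin r → GL (Fin n) K), IsTorus T' →
      (T' : Set (Fin r → GL (Fin n) K)) ⊆ Y → T ≤ T' → T' = T

/-- The set of all `H`-orbits of maximal tori lying in `X`. -/
def torusOrbits (M : Fin (r + 1) → GL (Fin n) K) : Set (Set (Subgroup (Fin r → GL (Fin n) K))) :=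
  (fun T => {T' | ∃ σ ∈ stabX M, T' = T.map σ.toMonoidHom}) '' {T | IsMaximalTorusIn (X M) T}

end Defs

section Closure

variable {K : Type u} [Field K] {n r : ℕ}

lemma IsRegular.const (c : K) : IsRegular fun _ : Fin r → GL (Fin n) K => c :=
  ⟨MvPolynomial.C c, fun h => by simp⟩

lemma IsRegular.entry (i : Fin r) (a b : Fin n) :
    IsRegular fun h : Fin r → GL (Fin n) K => (h i : Matrix (Fin n) (Fin n) K) a b :=
  ⟨MvPolynomial.X (i, some (a, b)), fun h => by simp [coord]⟩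

lemma IsRegular.add {f g : (Fin r → GL (Fin n) K) → K} (hf : IsRegular f) (hg : IsRegular g) :
    IsRegular fun h => f h + g h := by
  obtain ⟨p, hp⟩ := hf
  obtain ⟨q, hq⟩ := hg
  exact ⟨p + q, fun h => by simp [hp, hq]⟩

lemma IsRegular.sub {f g : (Fin r → GL (Fin n) K) → K} (hf : IsRegular f) (hg : IsRegular g) :
    IsRegular fun h => f h - g h := by
  obtain ⟨p, hp⟩ := hf
  obtain ⟨q, hq⟩ := hg
  exact ⟨p - q, fun h => by simp [hp, hq]⟩

lemma IsRegular.mul {f g : (Fin r → GL (Fin n) K) → K} (hf : IsRegular f) (hg : IsRegular g) :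
    IsRegular fun h => f h * g h := by
  obtain ⟨p, hp⟩ := hf
  obtain ⟨q, hq⟩ := hg
  exact ⟨p * q, fun h => by simp [hp, hq]⟩

lemma IsRegular.matMul {f g : (Fin r → GL (Fin n) K) → GL (Fin n) K}
    (hf : ∀ a b, IsRegular fun h => (f h : Matrix (Fin n) (Fin n) K) a b)
    (hg : ∀ a b, IsRegular fun h => (g h : Matrix (Fin n) (Fin n) K) a b) (a b : Fin n) :
    IsRegular fun h => ((f h * g h : GL (Fin n) K) : Matrix (Fin n) (Fin n) K) a b := by
  choose p hp using hf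
  choose q hq using hg
  refine ⟨∑ c, p a c * q c b, fun h => ?_⟩
  beta_reduce
  rw [map_sum, Units.val_mul, Matrix.mul_apply]
  exact Finset.sum_congr rfl fun c _ => by rw [map_mul, ← hp, ← hq]

lemma IsZariskiClosed.zero {f : (Fin r → GL (Fin n) K) → K} (hf : IsRegular f) :
    IsZariskiClosed {h | f h = 0} := by
  obtain ⟨p, hp⟩ := hf
  exact ⟨{p}, fun h => by simp [hp]⟩

lemma IsZariskiClosed.inter {A B : Set (Fin r → GL (Fin n) K)} (hA : IsZariskiClosed A)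
    (hB : IsZariskiClosed B) : IsZariskiClosed (A ∩ B) := by
  obtain ⟨S, hS⟩ := hA
  obtain ⟨T, hT⟩ := hB
  refine ⟨S ∪ T, fun h => ?_⟩
  rw [Set.mem_inter_iff, hS, hT]
  constructor
  · rintro ⟨h1, h2⟩ p (hp | hp)
    · exact h1 p hp
    · exact h2 p hp
  · intro h1
    exact ⟨fun p hp => h1 p (Or.inl hp), fun p hp => h1 p (Or.inr hp)⟩

variable {d : ℕ}

lemma IsLaurent.const (c : K) : IsLaurent fun _ : Fin d → Kˣ => c :=
  ⟨MvPolynomial.C c, fun h => by simp⟩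

lemma IsLaurent.coe (j : Fin d) : IsLaurent fun z : Fin d → Kˣ => ((z j : Kˣ) : K) :=
  ⟨MvPolynomial.X (Sum.inl j), fun h => by simp⟩

lemma IsLaurent.inv (j : Fin d) : IsLaurent fun z : Fin d → Kˣ => (((z j)⁻¹ : Kˣ) : K) :=
  ⟨MvPolynomial.X (Sum.inr j), fun h => by simp⟩

lemma IsLaurent.add {f g : (Fin d → Kˣ) → K} (hf : IsLaurent f) (hg : IsLaurent g) :
    IsLaurent fun h => f h + g h := by
  obtain ⟨p, hp⟩ := hf
  obtain ⟨q, hq⟩ := hg
  exact ⟨p + q, fun h => by simp [hp, hq]⟩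

lemma IsLaurent.sub {f g : (Fin d → Kˣ) → K} (hf : IsLaurent f) (hg : IsLaurent g) :
    IsLaurent fun h => f h - g h := by
  obtain ⟨p, hp⟩ := hf
  obtain ⟨q, hq⟩ := hg
  exact ⟨p - q, fun h => by simp [hp, hq]⟩

lemma IsLaurent.mul {f g : (Fin d → Kˣ) → K} (hf : IsLaurent f) (hg : IsLaurent g) :
    IsLaurent fun h => f h * g h := by
  obtain ⟨p, hp⟩ := hf
  obtain ⟨q, hq⟩ := hg
  exact ⟨p * q, fun h => by simp [hp, hq]⟩

end Closure

section Two

variable {K : Type u} [Field K]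

/-- Scalar matrices in `GL₂`. -/
def Sc (g : GL (Fin 2) K) : Prop :=
  (g : Matrix (Fin 2) (Fin 2) K) 0 1 = 0 ∧ (g : Matrix (Fin 2) (Fin 2) K) 1 0 = 0 ∧
    (g : Matrix (Fin 2) (Fin 2) K) 0 0 = (g : Matrix (Fin 2) (Fin 2) K) 1 1

lemma gl_ext {g h : GL (Fin 2) K}
    (h00 : (g : Matrix (Fin 2) (Fin 2) K) 0 0 = (h : Matrix (Fin 2) (Fin 2) K) 0 0)
    (h01 : (g : Matrix (Fin 2) (Fin 2) K) 0 1 = (h : Matrix (Fin 2) (Fin 2) K) 0 1)
    (h10 : (g : Matrix (Fin 2) (Fin 2) K) 1 0 = (h : Matrix (Fin 2) (Fin 2) K) 1 0)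
    (h11 : (g : Matrix (Fin 2) (Fin 2) K) 1 1 = (h : Matrix (Fin 2) (Fin 2) K) 1 1) : g = h := by
  apply Units.ext
  ext i j
  fin_cases i <;> fin_cases j <;> assumption

lemma commute_iff (g h : GL (Fin 2) K) : g * h = h * g ↔
    ((g : Matrix (Fin 2) (Fin 2) K) 0 1 * (h : Matrix (Fin 2) (Fin 2) K) 1 0 =
      (g : Matrix (Fin 2) (Fin 2) K) 1 0 * (h : Matrix (Fin 2) (Fin 2) K) 0 1 ∧
    (g : Matrix (Fin 2) (Fin 2) K) 0 1 *
        ((h : Matrix (Fin 2) (Fin 2) K) 1 1 - (h : Matrix (Fin 2) (Fin 2) K) 0 0) =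
      ((g : Matrix (Fin 2) (Fin 2) K) 1 1 - (g : Matrix (Fin 2) (Fin 2) K) 0 0) *
        (h : Matrix (Fin 2) (Fin 2) K) 0 1 ∧
    (g : Matrix (Fin 2) (Fin 2) K) 1 0 *
        ((h : Matrix (Fin 2) (Fin 2) K) 1 1 - (h : Matrix (Fin 2) (Fin 2) K) 0 0) =
      ((g : Matrix (Fin 2) (Fin 2) K) 1 1 - (g : Matrix (Fin 2) (Fin 2) K) 0 0) *
        (h : Matrix (Fin 2) (Fin 2) K) 1 0) := by
  constructor
  · intro hc
    have e : ∀ i j, ((g * h : GL (Fin 2) K) : Matrix (Fin 2) (Fin 2) K) i j =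
        ((h * g : GL (Fin 2) K) : Matrix (Fin 2) (Fin 2) K) i j := by
      intro i j
      rw [hc]
    have e00 := e 0 0
    have e01 := e 0 1
    have e10 := e 1 0
    simp only [Units.val_mul, Matrix.mul_apply, Fin.sum_univ_two] at e00 e01 e10
    refine ⟨?_, ?_, ?_⟩
    · linear_combination e00
    · linear_combination e01
    · linear_combination -e10
  · rintro ⟨h1, h2, h3⟩
    apply gl_ext
    all_goals simp only [Units.val_mul, Matrix.mul_apply, Fin.sum_univ_two]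
    · linear_combination h1
    · linear_combination h2
    · linear_combination -h3
    · linear_combination -h1

lemma Sc.comm {g : GL (Fin 2) K} (hg : Sc g) (h : GL (Fin 2) K) : g * h = h * g := by
  obtain ⟨h1, h2, h3⟩ := hg
  rw [commute_iff, h1, h2, h3]
  simp

/-- The upper unitriangular matrix. -/
def Up : GL (Fin 2) K where
  val := !![1, 1; 0, 1]
  inv := !![1, -1; 0, 1]
  val_inv := by ext i j; fin_cases i <;> fin_cases j <;> simp [Matrix.mul_apply, Fin.sum_univ_two]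
  inv_val := by ext i j; fin_cases i <;> fin_cases j <;> simp [Matrix.mul_apply, Fin.sum_univ_two]

/-- The lower unitriangular matrix. -/
def Lo : GL (Fin 2) K where
  val := !![1, 0; 1, 1]
  inv := !![1, 0; -1, 1]
  val_inv := by ext i j; fin_cases i <;> fin_cases j <;> simp [Matrix.mul_apply, Fin.sum_univ_two]
  inv_val := by ext i j; fin_cases i <;> fin_cases j <;> simp [Matrix.mul_apply, Fin.sum_univ_two]

lemma sc_or_sc [CharZero K] {A B : GL (Fin 2) K}
    (h : ∀ g : GL (Fin 2) K, g * A * g⁻¹ * B = B * (g * A * g⁻¹)) : Sc A ∨ Sc B := by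
  have h1 := h 1
  have h2 := h Up
  have h3 := h Lo
  rw [commute_iff] at h1 h2 h3
  obtain ⟨a1, a2, a3⟩ := h1
  obtain ⟨b1, b2, b3⟩ := h2
  obtain ⟨c1, c2, c3⟩ := h3
  simp only [Up, Lo, Units.val_mul, inv_one, one_mul, mul_one, Matrix.mul_apply,
    Fin.sum_univ_two, Units.inv_mk, Matrix.of_apply, Matrix.cons_val', Matrix.cons_val_zero,
    Matrix.cons_val_one, Matrix.cons_val_fin_one, zero_mul, mul_zero, add_zero, zero_add,
    mul_neg] at a1 a2 a3 b1 b2 b3 c1 c2 c3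
  unfold Sc
  generalize (A : Matrix (Fin 2) (Fin 2) K) 0 0 = a at *
  generalize (A : Matrix (Fin 2) (Fin 2) K) 0 1 = b at *
  generalize (A : Matrix (Fin 2) (Fin 2) K) 1 0 = c at *
  generalize (A : Matrix (Fin 2) (Fin 2) K) 1 1 = d at *
  generalize (B : Matrix (Fin 2) (Fin 2) K) 0 0 = p at *
  generalize (B : Matrix (Fin 2) (Fin 2) K) 0 1 = q at *
  generalize (B : Matrix (Fin 2) (Fin 2) K) 1 0 = s at *
  generalize (B : Matrix (Fin 2) (Fin 2) K) 1 1 = t at *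
  have two : (2 : K) ≠ 0 := two_ne_zero
  have cs : c * s = 0 := by
    have : 2 * (c * s) = 0 := by linear_combination b3 - a3
    exact (mul_eq_zero.mp this).resolve_left two
  have es : (d - a) * s = 0 := by linear_combination b1 - a1 + cs
  have bq : b * q = 0 := by
    have : 2 * (b * q) = 0 := by linear_combination a2 - c2
    exact (mul_eq_zero.mp this).resolve_left two
  have eq' : (d - a) * q = 0 := by linear_combination c1 - a1 - bq
  have bf : b * (t - p) = 0 := by linear_combination a2 + eq'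
  have cf : c * (t - p) = 0 := by linear_combination a3 + es
  have ef : (d - a) * (t - p) = - 2 * (c * q) := by linear_combination b2 + cf - bf + eq'
  by_cases hs : s = 0
  · by_cases hq : q = 0
    · by_cases hf : t - p = 0
      · right
        exact ⟨hq, hs, by linear_combination -hf⟩
      · left
        have hb := (mul_eq_zero.mp bf).resolve_right hf
        have hc := (mul_eq_zero.mp cf).resolve_right hf
        have he : d - a = 0 := by
          have : (d - a) * (t - p) = 0 := by rw [ef, hc]; ring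
          exact (mul_eq_zero.mp this).resolve_right hf
        exact ⟨hb, hc, by linear_combination -he⟩
    · left
      have hb := (mul_eq_zero.mp bq).resolve_right hq
      have he := (mul_eq_zero.mp eq').resolve_right hq
      have hc : c = 0 := by
        have : c * q = 0 := by rw [← a1, hb, zero_mul]
        exact (mul_eq_zero.mp this).resolve_right hq
      exact ⟨hb, hc, by linear_combination -he⟩
  · left
    have hc := (mul_eq_zero.mp cs).resolve_right hs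
    have he := (mul_eq_zero.mp es).resolve_right hs
    have hb : b = 0 := by
      have : b * s = 0 := by rw [a1, hc, zero_mul]
      exact (mul_eq_zero.mp this).resolve_right hs
    exact ⟨hb, hc, by linear_combination -he⟩

/-! ### Supports -/

variable (K) in
/-- The group `GL₂⁴`. -/
abbrev G4 : Type u := Fin 4 → GL (Fin 2) K

/-- Two elements all of whose conjugates commute with each other. -/
def Disj (x y : G4 K) : Prop := ∀ g : G4 K, g * x * g⁻¹ * y = y * (g * x * g⁻¹)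

lemma disj_iff [CharZero K] (x y : G4 K) : Disj x y ↔ ∀ i, Sc (x i) ∨ Sc (y i) := by
  classical
  constructor
  · intro h i
    refine sc_or_sc fun g => ?_
    have := congrFun (h (Pi.mulSingle i g)) i
    simpa using this
  · intro h g
    funext i
    simp only [Pi.mul_apply, Pi.inv_apply]
    rcases h i with h1 | h1
    · rw [← h1.comm (g i), mul_inv_cancel_right, h1.comm]
    · rw [← h1.comm]

lemma disj_map (σ : G4 K ≃* G4 K) (x y : G4 K) : Disj (σ x) (σ y) ↔ Disj x y := by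
  constructor
  · intro h g
    apply σ.injective
    simpa using h (σ g)
  · intro h g
    have := congrArg σ (h (σ.symm g))
    simpa using this

/-- Automorphisms of `GL₂⁴` permute the coordinates modulo scalars. -/
lemma exists_perm [CharZero K] (σ : G4 K ≃* G4 K) :
    ∃ π : Equiv.Perm (Fin 4), ∀ (x : G4 K) (i : Fin 4), Sc (σ x (π i)) ↔ Sc (x i) := by
  classical
  have hU : ¬ Sc (Up : GL (Fin 2) K) := by
    intro h
    have := h.1
    simp [Up] at this
  let e : Fin 4 → G4 K := fun i => Pi.mulSingle i Up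
  have h1 : Sc (1 : GL (Fin 2) K) := by simp [Sc]
  have he : ∀ i j, i ≠ j → Disj (e i) (e j) := by
    intro i j hij
    rw [disj_iff]
    intro k
    by_cases hk : k = i
    · right
      simp only [e]
      rw [Pi.mulSingle_eq_of_ne (by rw [hk]; exact hij)]
      exact h1
    · left
      simp only [e]
      rw [Pi.mulSingle_eq_of_ne hk]
      exact h1
  have hx : ∀ (x : G4 K) i, Disj x (e i) ↔ Sc (x i) := by
    intro x i
    rw [disj_iff]
    constructor
    · intro h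
      rcases h i with h2 | h2
      · exact h2
      · simp only [e, Pi.mulSingle_eq_same] at h2
        exact absurd h2 hU
    · intro h k
      by_cases hk : k = i
      · left; rw [hk]; exact h
      · right
        simp only [e]
        rw [Pi.mulSingle_eq_of_ne hk]
        exact h1
  have hne : ∀ i, ∃ j, ¬ Sc (σ (e i) j) := by
    intro i
    by_contra hcon
    push Not at hcon
    have h2 : Disj (σ (e i)) (σ (e i)) := by
      rw [disj_iff]
      exact fun k => Or.inl (hcon k)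
    rw [disj_map, hx] at h2
    simp only [e, Pi.mulSingle_eq_same] at h2
    exact hU h2
  choose π hπ using hne
  have hinj : Function.Injective π := by
    intro i j hij
    by_contra hne
    have h2 := (disj_map σ _ _).2 (he i j hne)
    rw [disj_iff] at h2
    rcases h2 (π i) with h3 | h3
    · exact hπ i h3
    · rw [hij] at h3
      exact hπ j h3
  have hbij : Function.Bijective π := Finite.injective_iff_bijective.mp hinj
  refine ⟨Equiv.ofBijective π hbij, fun x i => ?_⟩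
  rw [Equiv.ofBijective_apply, ← hx x i, ← disj_map σ, disj_iff]
  constructor
  · intro h k
    obtain ⟨j, rfl⟩ := hbij.2 k
    by_cases hij : j = i
    · left; rw [hij]; exact h
    · right
      have h2 := (disj_map σ _ _).2 (he j i hij)
      rw [disj_iff] at h2
      exact (h2 (π j)).resolve_left (hπ j)
  · intro h
    exact (h (π i)).resolve_right (hπ i)

/-! ### The tori -/

/-- The matrix with eigenvalues `x`, `y` in the maximal torus of `GL₂` attached to `ζ`. -/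
noncomputable def mkA [CharZero K] (ζ x y : Kˣ) : GL (Fin 2) K where
  val := !![((x : K) + y) / 2, ζ * ((x : K) - y) / 2; (ζ : K)⁻¹ * ((x : K) - y) / 2, ((x : K) + y) / 2]
  inv := !![((x : K)⁻¹ + (y : K)⁻¹) / 2, ζ * ((x : K)⁻¹ - (y : K)⁻¹) / 2;
    (ζ : K)⁻¹ * ((x : K)⁻¹ - (y : K)⁻¹) / 2, ((x : K)⁻¹ + (y : K)⁻¹) / 2]
  val_inv := by
    have hx := x.ne_zero
    have hy := y.ne_zero
    have hz := ζ.ne_zero
    ext i j
    fin_cases i <;> fin_cases j <;> simp [Matrix.mul_apply, Fin.sum_univ_two] <;> field_simp <;> ring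
  inv_val := by
    have hx := x.ne_zero
    have hy := y.ne_zero
    have hz := ζ.ne_zero
    ext i j
    fin_cases i <;> fin_cases j <;> simp [Matrix.mul_apply, Fin.sum_univ_two] <;> field_simp <;> ring

variable [CharZero K]

lemma mkA_00 (ζ x y : Kˣ) : (mkA ζ x y : Matrix (Fin 2) (Fin 2) K) 0 0 = ((x : K) + y) / 2 := rfl
lemma mkA_01 (ζ x y : Kˣ) : (mkA ζ x y : Matrix (Fin 2) (Fin 2) K) 0 1 = ζ * ((x : K) - y) / 2 :=
  rfl
lemma mkA_10 (ζ x y : Kˣ) :
    (mkA ζ x y : Matrix (Fin 2) (Fin 2) K) 1 0 = (ζ : K)⁻¹ * ((x : K) - y) / 2 := rfl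
lemma mkA_11 (ζ x y : Kˣ) : (mkA ζ x y : Matrix (Fin 2) (Fin 2) K) 1 1 = ((x : K) + y) / 2 := rfl

lemma mkA_mul (ζ x y x' y' : Kˣ) : mkA ζ x y * mkA ζ x' y' = mkA ζ (x * x') (y * y') := by
  have hz := ζ.ne_zero
  apply gl_ext
  all_goals
    simp only [Units.val_mul, Matrix.mul_apply, Fin.sum_univ_two, mkA_00, mkA_01, mkA_10, mkA_11]
    field_simp
    ring

lemma mkA_one (ζ : Kˣ) : mkA ζ 1 1 = (1 : GL (Fin 2) K) := by
  apply gl_ext <;> simp [mkA_00, mkA_01, mkA_10, mkA_11]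

lemma mkA_inj {ζ x y x' y' : Kˣ} (h : mkA ζ x y = mkA ζ x' y') : x = x' ∧ y = y' := by
  have hz := ζ.ne_zero
  have h0 : (mkA ζ x y : Matrix (Fin 2) (Fin 2) K) 0 0 = (mkA ζ x' y' : Matrix (Fin 2) (Fin 2) K) 0 0 := by
    rw [h]
  have h1 : (mkA ζ x y : Matrix (Fin 2) (Fin 2) K) 0 1 = (mkA ζ x' y' : Matrix (Fin 2) (Fin 2) K) 0 1 := by
    rw [h]
  rw [mkA_00, mkA_00] at h0
  rw [mkA_01, mkA_01] at h1
  have h2 : (x : K) - y = x' - y' := by
    field_simp at h1
    exact h1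
  constructor
  · apply Units.ext
    linear_combination h0 + h2 / 2
  · apply Units.ext
    linear_combination h0 - h2 / 2

/-- The involutory matrix with zero diagonal. -/
noncomputable def S (ζ : Kˣ) : GL (Fin 2) K := mkA ζ 1 (-1)

lemma S_00 (ζ : Kˣ) : (S ζ : Matrix (Fin 2) (Fin 2) K) 0 0 = 0 := by simp [S, mkA_00]
lemma S_11 (ζ : Kˣ) : (S ζ : Matrix (Fin 2) (Fin 2) K) 1 1 = 0 := by simp [S, mkA_11]
lemma S_01 (ζ : Kˣ) : (S ζ : Matrix (Fin 2) (Fin 2) K) 0 1 = ζ := by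
  rw [S, mkA_01]
  push_cast
  ring
lemma S_10 (ζ : Kˣ) : (S ζ : Matrix (Fin 2) (Fin 2) K) 1 0 = (ζ : K)⁻¹ := by
  rw [S, mkA_10]
  push_cast
  ring

lemma S_mul_self (ζ : Kˣ) : S ζ * S ζ = 1 := by
  rw [S, mkA_mul, ← mkA_one ζ]
  simp

lemma S_inv (ζ : Kˣ) : (S ζ)⁻¹ = S ζ := inv_eq_of_mul_eq_one_left (S_mul_self ζ)

lemma comm_S_iff (ζ : Kˣ) (g : GL (Fin 2) K) : g * S ζ = S ζ * g ↔
    (g : Matrix (Fin 2) (Fin 2) K) 0 0 = (g : Matrix (Fin 2) (Fin 2) K) 1 1 ∧
    (g : Matrix (Fin 2) (Fin 2) K) 0 1 = (ζ : K) ^ 2 * (g : Matrix (Fin 2) (Fin 2) K) 1 0 := by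
  have hz := ζ.ne_zero
  rw [commute_iff, S_00, S_11, S_01, S_10]
  constructor
  · rintro ⟨h1, h2, h3⟩
    constructor
    · have h4 : ((g : Matrix (Fin 2) (Fin 2) K) 1 1 - (g : Matrix (Fin 2) (Fin 2) K) 0 0) = 0 := by
        have h5 : ((g : Matrix (Fin 2) (Fin 2) K) 1 1 - (g : Matrix (Fin 2) (Fin 2) K) 0 0) *
          (ζ : K) = 0 := by rw [← h2]; ring
        exact (mul_eq_zero.mp h5).resolve_right hz
      linear_combination -h4
    · field_simp at h1
      linear_combination h1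
  · rintro ⟨h1, h2⟩
    rw [h2, h1]
    refine ⟨?_, ?_, ?_⟩
    · field_simp
    · ring
    · ring

lemma comm_S_iff_exists (ζ : Kˣ) (g : GL (Fin 2) K) :
    g * S ζ = S ζ * g ↔ ∃ x y, g = mkA ζ x y := by
  have hz := ζ.ne_zero
  constructor
  · intro h
    rw [comm_S_iff] at h
    obtain ⟨h1, h2⟩ := h
    have hdet : (g : Matrix (Fin 2) (Fin 2) K).det ≠ 0 := by
      have := (Matrix.isUnit_iff_isUnit_det _).1 g.isUnit
      exact this.ne_zero
    rw [Matrix.det_fin_two, ← h1, h2] at hdet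
    have hx : (g : Matrix (Fin 2) (Fin 2) K) 0 0 + (ζ : K) * (g : Matrix (Fin 2) (Fin 2) K) 1 0 ≠ 0 := by
      intro h
      apply hdet
      linear_combination ((g : Matrix (Fin 2) (Fin 2) K) 0 0 -
        (ζ : K) * (g : Matrix (Fin 2) (Fin 2) K) 1 0) * h
    have hy : (g : Matrix (Fin 2) (Fin 2) K) 0 0 - (ζ : K) * (g : Matrix (Fin 2) (Fin 2) K) 1 0 ≠ 0 := by
      intro h
      apply hdet
      linear_combination ((g : Matrix (Fin 2) (Fin 2) K) 0 0 +
        (ζ : K) * (g : Matrix (Fin 2) (Fin 2) K) 1 0) * h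
    refine ⟨Units.mk0 _ hx, Units.mk0 _ hy, ?_⟩
    apply gl_ext
    · rw [mkA_00, Units.val_mk0, Units.val_mk0]
      ring
    · rw [mkA_01, Units.val_mk0, Units.val_mk0, h2]
      ring
    · rw [mkA_10, Units.val_mk0, Units.val_mk0]
      field_simp
      ring
    · rw [mkA_11, Units.val_mk0, Units.val_mk0, ← h1]
      ring
  · rintro ⟨x, y, rfl⟩
    rw [S, mkA_mul, mkA_mul, mul_comm x, mul_comm y]

/-- The parametrization of the torus. -/
noncomputable def par (ζ : Kˣ) : (Fin 5 → Kˣ) →* G4 K where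
  toFun := fun z => ![mkA 1 (z 0) (z 1), mkA ζ (z 2) (z 3),
    mkA ζ (z 4 * (z 2)⁻¹) (z 4 * (z 3)⁻¹), mkA 1 ((z 0)⁻¹ * (z 4)⁻¹) ((z 1)⁻¹ * (z 4)⁻¹)]
  map_one' := by
    funext i
    fin_cases i <;> simp [mkA_one]
  map_mul' := by
    intro z w
    funext i
    fin_cases i
    · simp [mkA_mul]
    · simp [mkA_mul]
    · simp only [Pi.mul_apply, mul_inv]
      change mkA ζ _ _ = mkA ζ _ _ * mkA ζ _ _
      rw [mkA_mul]
      congr 1 <;> (simp only [mul_left_comm, mul_assoc])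
    · simp only [Pi.mul_apply, mul_inv]
      change mkA 1 _ _ = mkA 1 _ _ * mkA 1 _ _
      rw [mkA_mul]
      congr 1 <;> (simp only [mul_comm, mul_left_comm, mul_assoc])

/-- The torus. -/
noncomputable def T (ζ : Kˣ) : Subgroup (G4 K) := (par ζ).range

lemma mkA_eq_mkA {ζ : Kˣ} (hζ : ζ ^ 2 ≠ 1) {x y x' y' : Kˣ} (h : mkA ζ x y = mkA 1 x' y') :
    x = y ∧ x' = x ∧ y' = x := by
  have hz := ζ.ne_zero
  have hζ' : (ζ : K) ^ 2 - 1 ≠ 0 := by
    intro h
    apply hζ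
    apply Units.ext
    push_cast
    linear_combination h
  have h0 : (mkA ζ x y : Matrix (Fin 2) (Fin 2) K) 0 0 = (mkA 1 x' y' : Matrix (Fin 2) (Fin 2) K) 0 0 := by
    rw [h]
  have h1 : (mkA ζ x y : Matrix (Fin 2) (Fin 2) K) 0 1 = (mkA 1 x' y' : Matrix (Fin 2) (Fin 2) K) 0 1 := by
    rw [h]
  have h2 : (mkA ζ x y : Matrix (Fin 2) (Fin 2) K) 1 0 = (mkA 1 x' y' : Matrix (Fin 2) (Fin 2) K) 1 0 := by
    rw [h]
  rw [mkA_00, mkA_00] at h0
  rw [mkA_01, mkA_01, Units.val_one] at h1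
  rw [mkA_10, mkA_10, Units.val_one] at h2
  field_simp at h2
  have h3 : ((ζ : K) ^ 2 - 1) * ((x : K) - y) = 0 := by
    linear_combination 2 * ζ * h1 - h2
  have h4 := (mul_eq_zero.mp h3).resolve_left hζ'
  have h5 : (x' : K) - y' = 0 := by
    linear_combination -2 * h1 + ζ * h4
  refine ⟨Units.ext (by linear_combination h4), Units.ext ?_, Units.ext ?_⟩
  · linear_combination -h0 + h5 / 2 - h4 / 2
  · linear_combination -h0 - h5 / 2 - h4 / 2

lemma mem_T {ζ : Kˣ} (hζ : ζ ^ 2 ≠ 1) (h : G4 K) : h ∈ T ζ ↔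
    (h 0 * S 1 = S 1 * h 0 ∧ h 1 * S ζ = S ζ * h 1 ∧ h 2 * S ζ = S ζ * h 2 ∧
      h 3 * S 1 = S 1 * h 3) ∧ h 0 * h 1 * h 2 * h 3 = 1 := by
  constructor
  · rintro ⟨z, rfl⟩
    refine ⟨⟨?_, ?_, ?_, ?_⟩, ?_⟩
    · exact (comm_S_iff_exists 1 _).2 ⟨_, _, rfl⟩
    · exact (comm_S_iff_exists ζ _).2 ⟨_, _, rfl⟩
    · exact (comm_S_iff_exists ζ _).2 ⟨_, _, rfl⟩
    · exact (comm_S_iff_exists 1 _).2 ⟨_, _, rfl⟩
    · change mkA 1 (z 0) (z 1) * mkA ζ (z 2) (z 3) * mkA ζ (z 4 * (z 2)⁻¹) (z 4 * (z 3)⁻¹) *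
        mkA 1 ((z 0)⁻¹ * (z 4)⁻¹) ((z 1)⁻¹ * (z 4)⁻¹) = 1
      rw [mul_assoc (mkA 1 _ _), mkA_mul]
      have h1 : mkA ζ (z 2 * (z 4 * (z 2)⁻¹)) (z 3 * (z 4 * (z 3)⁻¹)) = mkA 1 (z 4) (z 4) := by
        have h2 : z 2 * (z 4 * (z 2)⁻¹) = z 4 := by
          rw [mul_comm (z 4), mul_inv_cancel_left]
        have h3 : z 3 * (z 4 * (z 3)⁻¹) = z 4 := by
          rw [mul_comm (z 4), mul_inv_cancel_left]
        rw [h2, h3]
        apply gl_ext <;> simp [mkA_00, mkA_01, mkA_10, mkA_11]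
      rw [h1, mkA_mul, mkA_mul, ← mkA_one 1]
      congr 1
      · rw [mul_comm (z 0)⁻¹, mul_assoc, mul_inv_cancel_left, mul_inv_cancel]
      · rw [mul_comm (z 1)⁻¹, mul_assoc, mul_inv_cancel_left, mul_inv_cancel]
  · rintro ⟨⟨h0, h1, h2, h3⟩, hp⟩
    rw [comm_S_iff_exists] at h0 h1 h2 h3
    obtain ⟨x0, y0, h0⟩ := h0
    obtain ⟨x1, y1, h1⟩ := h1
    obtain ⟨x2, y2, h2⟩ := h2
    obtain ⟨x3, y3, h3⟩ := h3
    have hq : h 1 * h 2 = (h 3 * h 0)⁻¹ := by
      rw [eq_inv_iff_mul_eq_one]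
      have h4 : h 1 * h 2 * h 3 * h 0 = (h 0)⁻¹ * (h 0 * h 1 * h 2 * h 3) * h 0 := by group
      rw [← mul_assoc, h4, hp]
      group
    have hinv : (h 3 * h 0)⁻¹ = mkA 1 (x3 * x0)⁻¹ (y3 * y0)⁻¹ := by
      rw [h3, h0, mkA_mul, inv_eq_iff_mul_eq_one, mkA_mul, mul_inv_cancel, mul_inv_cancel, mkA_one]
    rw [hinv, h1, h2, mkA_mul] at hq
    obtain ⟨e1, e2, e3⟩ := mkA_eq_mkA hζ hq
    refine ⟨![x0, y0, x1, y1, x1 * x2], ?_⟩
    funext i
    fin_cases i
    · exact h0.symm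
    · exact h1.symm
    · change mkA ζ (x1 * x2 * x1⁻¹) (x1 * x2 * y1⁻¹) = h 2
      rw [h2, mul_comm x1, mul_inv_cancel_right, mul_comm x2, e1, mul_comm y1, mul_inv_cancel_right]
    · change mkA 1 (x0⁻¹ * (x1 * x2)⁻¹) (y0⁻¹ * (x1 * x2)⁻¹) = h 3
      rw [h3]
      congr 1
      · rw [← e2, inv_inv, mul_comm x3, inv_mul_cancel_left]
      · rw [← e3, inv_inv, mul_comm y3, inv_mul_cancel_left]

omit [CharZero K] in
lemma X_one_iff (h : G4 K) : h ∈ X (1 : Fin 5 → GL (Fin 2) K) ↔ h 0 * h 1 * h 2 * h 3 = 1 := by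
  unfold X
  simp [List.ofFn_succ, mul_assoc]

lemma par_injective (ζ : Kˣ) : Function.Injective (par ζ) := by
  intro z w hzw
  have h0 := mkA_inj (congrFun hzw 0)
  have h1 := mkA_inj (congrFun hzw 1)
  have h2 := mkA_inj (congrFun hzw 2)
  have h4 : z 4 = w 4 := by
    have := h2.1
    rw [h1.1] at this
    exact mul_right_cancel this
  funext i
  fin_cases i
  · exact h0.1
  · exact h0.2
  · exact h1.1
  · exact h1.2
  · exact h4

omit [CharZero K] in
lemma IsZariskiClosed.eq {f g : G4 K → K} (hf : IsRegular f) (hg : IsRegular g) :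
    IsZariskiClosed {h : G4 K | f h = g h} := by
  have h1 := IsZariskiClosed.zero (hf.sub hg)
  have h2 : {h : G4 K | f h = g h} = {h | f h - g h = 0} := by
    ext h
    exact sub_eq_zero.symm
  rw [h2]
  exact h1

lemma closed_comm (ζ : Kˣ) (i : Fin 4) : IsZariskiClosed {h : G4 K | h i * S ζ = S ζ * h i} := by
  have h1 : {h : G4 K | h i * S ζ = S ζ * h i} =
      {h : G4 K | (h i : Matrix (Fin 2) (Fin 2) K) 0 0 = (h i : Matrix (Fin 2) (Fin 2) K) 1 1} ∩
      {h : G4 K | (h i : Matrix (Fin 2) (Fin 2) K) 0 1 =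
        (ζ : K) ^ 2 * (h i : Matrix (Fin 2) (Fin 2) K) 1 0} := by
    ext h
    exact comm_S_iff ζ (h i)
  rw [h1]
  exact (IsZariskiClosed.eq (IsRegular.entry _ _ _) (IsRegular.entry _ _ _)).inter
    (IsZariskiClosed.eq (IsRegular.entry _ _ _) ((IsRegular.const _).mul (IsRegular.entry _ _ _)))

omit [CharZero K] in
lemma closed_prod : IsZariskiClosed {h : G4 K | h 0 * h 1 * h 2 * h 3 = 1} := by
  have hr : ∀ a b, IsRegular fun h : G4 K =>
      ((h 0 * h 1 * h 2 * h 3 : GL (Fin 2) K) : Matrix (Fin 2) (Fin 2) K) a b :=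
    IsRegular.matMul (IsRegular.matMul (IsRegular.matMul (IsRegular.entry 0) (IsRegular.entry 1))
      (IsRegular.entry 2)) (IsRegular.entry 3)
  have h1 : {h : G4 K | h 0 * h 1 * h 2 * h 3 = 1} =
      (({h : G4 K | ((h 0 * h 1 * h 2 * h 3 : GL (Fin 2) K) : Matrix (Fin 2) (Fin 2) K) 0 0 = 1} ∩
      {h : G4 K | ((h 0 * h 1 * h 2 * h 3 : GL (Fin 2) K) : Matrix (Fin 2) (Fin 2) K) 0 1 = 0}) ∩
      {h : G4 K | ((h 0 * h 1 * h 2 * h 3 : GL (Fin 2) K) : Matrix (Fin 2) (Fin 2) K) 1 0 = 0}) ∩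
      {h : G4 K | ((h 0 * h 1 * h 2 * h 3 : GL (Fin 2) K) : Matrix (Fin 2) (Fin 2) K) 1 1 = 1} := by
    ext h
    constructor
    · intro h1
      have h2 : h 0 * h 1 * h 2 * h 3 = 1 := h1
      refine ⟨⟨⟨?_, ?_⟩, ?_⟩, ?_⟩
      all_goals
        change ((h 0 * h 1 * h 2 * h 3 : GL (Fin 2) K) : Matrix (Fin 2) (Fin 2) K) _ _ = _
        rw [h2]
        rfl
    · rintro ⟨⟨⟨h00, h01⟩, h10⟩, h11⟩
      exact gl_ext h00 h01 h10 h11
  rw [h1]
  exact (((IsZariskiClosed.eq (hr _ _) (IsRegular.const _)).inter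
    (IsZariskiClosed.eq (hr _ _) (IsRegular.const _))).inter
    (IsZariskiClosed.eq (hr _ _) (IsRegular.const _))).inter
    (IsZariskiClosed.eq (hr _ _) (IsRegular.const _))

lemma closed_T {ζ : Kˣ} (hζ : ζ ^ 2 ≠ 1) : IsZariskiClosed (T ζ : Set (G4 K)) := by
  have h1 : (T ζ : Set (G4 K)) = ((({h : G4 K | h 0 * S 1 = S 1 * h 0} ∩
      {h : G4 K | h 1 * S ζ = S ζ * h 1}) ∩ {h : G4 K | h 2 * S ζ = S ζ * h 2}) ∩
      {h : G4 K | h 3 * S 1 = S 1 * h 3}) ∩ {h : G4 K | h 0 * h 1 * h 2 * h 3 = 1} := by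
    ext h
    rw [SetLike.mem_coe, mem_T hζ]
    constructor
    · rintro ⟨⟨a, b, c, d⟩, e⟩
      exact ⟨⟨⟨⟨a, b⟩, c⟩, d⟩, e⟩
    · rintro ⟨⟨⟨⟨a, b⟩, c⟩, d⟩, e⟩
      exact ⟨⟨a, b, c, d⟩, e⟩
  rw [h1]
  exact ((((closed_comm 1 0).inter (closed_comm ζ 1)).inter (closed_comm ζ 2)).inter
    (closed_comm 1 3)).inter closed_prod

lemma laurent_mkA (ζ : Kˣ) {x y : (Fin 5 → Kˣ) → Kˣ} (hx : IsLaurent fun z => ((x z : Kˣ) : K))
    (hy : IsLaurent fun z => ((y z : Kˣ) : K)) (a b : Fin 2) :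
    IsLaurent fun z => (mkA ζ (x z) (y z) : Matrix (Fin 2) (Fin 2) K) a b := by
  have h2 := IsLaurent.const (K := K) (d := 5) ((2 : K)⁻¹)
  have h00 : IsLaurent fun z => (mkA ζ (x z) (y z) : Matrix (Fin 2) (Fin 2) K) 0 0 := by
    simp only [mkA_00, div_eq_mul_inv]
    exact (hx.add hy).mul h2
  have h01 : IsLaurent fun z => (mkA ζ (x z) (y z) : Matrix (Fin 2) (Fin 2) K) 0 1 := by
    simp only [mkA_01, div_eq_mul_inv]
    exact ((IsLaurent.const (ζ : K)).mul (hx.sub hy)).mul h2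
  have h10 : IsLaurent fun z => (mkA ζ (x z) (y z) : Matrix (Fin 2) (Fin 2) K) 1 0 := by
    simp only [mkA_10, div_eq_mul_inv]
    exact ((IsLaurent.const ((ζ : K)⁻¹)).mul (hx.sub hy)).mul h2
  have h11 : IsLaurent fun z => (mkA ζ (x z) (y z) : Matrix (Fin 2) (Fin 2) K) 1 1 := by
    simp only [mkA_11, div_eq_mul_inv]
    exact (hx.add hy).mul h2
  fin_cases a <;> fin_cases b
  exacts [h00, h01, h10, h11]

omit [CharZero K] in
lemma laurent_mul_inv (i j : Fin 5) :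
    IsLaurent fun z : Fin 5 → Kˣ => ((z i * (z j)⁻¹ : Kˣ) : K) := by
  simp only [Units.val_mul]
  exact (IsLaurent.coe (K := K) i).mul (IsLaurent.inv j)

omit [CharZero K] in
lemma laurent_inv_mul_inv (i j : Fin 5) :
    IsLaurent fun z : Fin 5 → Kˣ => (((z i)⁻¹ * (z j)⁻¹ : Kˣ) : K) := by
  simp only [Units.val_mul]
  exact (IsLaurent.inv (K := K) i).mul (IsLaurent.inv j)

lemma par_0 (ζ : Kˣ) (z : Fin 5 → Kˣ) : par ζ z 0 = mkA 1 (z 0) (z 1) := rfl
lemma par_1 (ζ : Kˣ) (z : Fin 5 → Kˣ) : par ζ z 1 = mkA ζ (z 2) (z 3) := rfl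
lemma par_2 (ζ : Kˣ) (z : Fin 5 → Kˣ) :
    par ζ z 2 = mkA ζ (z 4 * (z 2)⁻¹) (z 4 * (z 3)⁻¹) := rfl
lemma par_3 (ζ : Kˣ) (z : Fin 5 → Kˣ) :
    par ζ z 3 = mkA 1 ((z 0)⁻¹ * (z 4)⁻¹) ((z 1)⁻¹ * (z 4)⁻¹) := rfl

omit [CharZero K] in
lemma g4_ext {g h : G4 K} (h0 : g 0 = h 0) (h1 : g 1 = h 1) (h2 : g 2 = h 2) (h3 : g 3 = h 3) :
    g = h := by
  funext i
  fin_cases i
  exacts [h0, h1, h2, h3]

lemma isTorus_T {ζ : Kˣ} (hζ : ζ ^ 2 ≠ 1) : IsTorus (T ζ : Subgroup (G4 K)) := by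
  refine ⟨closed_T hζ, 5, MonoidHom.ofInjective (par_injective ζ), ?_, ?_⟩
  · intro i a b
    fin_cases i
    · exact laurent_mkA 1 (IsLaurent.coe 0) (IsLaurent.coe 1) a b
    · exact laurent_mkA ζ (IsLaurent.coe 2) (IsLaurent.coe 3) a b
    · exact laurent_mkA ζ (laurent_mul_inv 4 2) (laurent_mul_inv 4 3) a b
    · exact laurent_mkA 1 (laurent_inv_mul_inv 0 4) (laurent_inv_mul_inv 1 4) a b
  · have key : ∀ (j : Fin 5) (f : G4 K → K), IsRegular f →
        (∀ z : Fin 5 → Kˣ, ((z j : Kˣ) : K) = f (par ζ z)) →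
        ∃ f : G4 K → K, IsRegular f ∧ ∀ t : T ζ,
          (((MonoidHom.ofInjective (par_injective ζ)).symm t j : Kˣ) : K) = f t := by
      intro j f hr hf
      refine ⟨f, hr, fun t => ?_⟩
      have h1 := hf ((MonoidHom.ofInjective (par_injective ζ)).symm t)
      rw [h1]
      congr 1
      have h2 := MulEquiv.apply_symm_apply (MonoidHom.ofInjective (par_injective ζ)) t
      exact congrArg Subtype.val h2
    have hz := ζ.ne_zero
    have k0 := key 0 (fun h => (h 0 : Matrix (Fin 2) (Fin 2) K) 0 0 +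
        (h 0 : Matrix (Fin 2) (Fin 2) K) 0 1)
        ((IsRegular.entry _ _ _).add (IsRegular.entry _ _ _)) (fun z => by
          rw [par_0, mkA_00, mkA_01, Units.val_one]
          ring)
    have k1 := key 1 (fun h => (h 0 : Matrix (Fin 2) (Fin 2) K) 0 0 -
        (h 0 : Matrix (Fin 2) (Fin 2) K) 0 1)
        ((IsRegular.entry _ _ _).sub (IsRegular.entry _ _ _)) (fun z => by
          rw [par_0, mkA_00, mkA_01, Units.val_one]
          ring)
    have k2 := key 2 (fun h => (h 1 : Matrix (Fin 2) (Fin 2) K) 0 0 +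
        (ζ : K)⁻¹ * (h 1 : Matrix (Fin 2) (Fin 2) K) 0 1)
        ((IsRegular.entry _ _ _).add ((IsRegular.const _).mul (IsRegular.entry _ _ _)))
        (fun z => by
          rw [par_1, mkA_00, mkA_01]
          field_simp
          ring)
    have k3 := key 3 (fun h => (h 1 : Matrix (Fin 2) (Fin 2) K) 0 0 -
        (ζ : K)⁻¹ * (h 1 : Matrix (Fin 2) (Fin 2) K) 0 1)
        ((IsRegular.entry _ _ _).sub ((IsRegular.const _).mul (IsRegular.entry _ _ _)))
        (fun z => by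
          rw [par_1, mkA_00, mkA_01]
          field_simp
          ring)
    have k4 := key 4 (fun h => ((h 1 * h 2 : GL (Fin 2) K) : Matrix (Fin 2) (Fin 2) K) 0 0)
        (IsRegular.matMul (IsRegular.entry 1) (IsRegular.entry 2) 0 0) (fun z => by
          rw [par_1, par_2, mkA_mul, mkA_00, mul_comm (z 4), mul_inv_cancel_left, mul_comm (z 4),
            mul_inv_cancel_left]
          ring)
    intro j
    fin_cases j
    exacts [k0, k1, k2, k3, k4]

/-- The element `(S₁, 1, 1, S₁)`. -/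
noncomputable def tt : G4 K := ![S 1, 1, 1, S 1]
/-- The element `(1, S_ζ, S_ζ, 1)`. -/
noncomputable def uu (ζ : Kˣ) : G4 K := ![1, S ζ, S ζ, 1]
/-- The element `(S₁, S₁, 1, 1)`. -/
noncomputable def pp : G4 K := ![S 1, S 1, 1, 1]

lemma tt_mem (ζ : Kˣ) : (tt : G4 K) ∈ T ζ := by
  refine ⟨![1, -1, 1, 1, 1], g4_ext ?_ ?_ ?_ ?_⟩
  · rw [par_0]
    rfl
  · rw [par_1]
    exact mkA_one ζ
  · rw [par_2]
    simp only [Matrix.cons_val, mul_inv_cancel]
    exact mkA_one ζ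
  · rw [par_3]
    simp only [Matrix.cons_val, inv_one, mul_one]
    change mkA 1 1 (-1 : Kˣ)⁻¹ = mkA 1 1 (-1)
    rw [inv_neg_one]

lemma uu_mem (ζ : Kˣ) : (uu ζ : G4 K) ∈ T ζ := by
  refine ⟨![1, 1, 1, -1, 1], g4_ext ?_ ?_ ?_ ?_⟩
  · rw [par_0]
    exact mkA_one 1
  · rw [par_1]
    rfl
  · rw [par_2]
    simp only [Matrix.cons_val, inv_one, mul_one, one_mul]
    change mkA ζ 1 (-1 : Kˣ)⁻¹ = mkA ζ 1 (-1)
    rw [inv_neg_one]
  · rw [par_3]
    simp only [Matrix.cons_val, inv_one, mul_one]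
    exact mkA_one 1

lemma maximal_T {ζ : Kˣ} (hζ : ζ ^ 2 ≠ 1) :
    IsMaximalTorusIn (X (1 : Fin 5 → GL (Fin 2) K)) (T ζ) := by
  refine ⟨⟨isTorus_T hζ, ?_⟩, ?_⟩
  · intro h hh
    rw [X_one_iff]
    exact ((mem_T hζ h).1 hh).2
  · rintro T' ⟨_, d, e, _, _⟩ hX hle
    refine le_antisymm ?_ hle
    intro h hh
    have hcomm : ∀ a b : G4 K, a ∈ T' → b ∈ T' → a * b = b * a := by
      intro a b ha hb
      have h1 : (⟨a, ha⟩ : T') * ⟨b, hb⟩ = ⟨b, hb⟩ * ⟨a, ha⟩ := by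
        apply e.symm.injective
        rw [map_mul, map_mul, mul_comm]
      exact congrArg Subtype.val h1
    have h1 := hcomm h tt hh (hle (tt_mem ζ))
    have h2 := hcomm h (uu ζ) hh (hle (uu_mem ζ))
    rw [mem_T hζ]
    refine ⟨⟨congrFun h1 0, congrFun h2 1, congrFun h2 2, congrFun h1 3⟩, ?_⟩
    exact (X_one_iff h).1 (hX hh)

/-! ### The invariant -/

omit [CharZero K] in
lemma sc_iff (g : GL (Fin 2) K) : Sc g ↔ g ∈ Subgroup.center (GL (Fin 2) K) := by
  rw [Subgroup.mem_center_iff]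
  constructor
  · intro h x
    exact (h.comm x).symm
  · intro h
    have h1 := (commute_iff g Up).1 (h Up).symm
    have h2 := (commute_iff g Lo).1 (h Lo).symm
    simp only [Up, Lo, Matrix.of_apply, Matrix.cons_val', Matrix.cons_val_zero,
      Matrix.cons_val_one, Matrix.cons_val_fin_one, mul_zero, mul_one, sub_self] at h1 h2
    refine ⟨h2.1, h1.1.symm, ?_⟩
    linear_combination h1.2.1

variable (K) in
/-- The quotient of `GL₂` by its centre. -/
abbrev Q : Type u := GL (Fin 2) K ⧸ Subgroup.center (GL (Fin 2) K)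

/-- The projection. -/
def q : GL (Fin 2) K →* Q K := QuotientGroup.mk' _

omit [CharZero K] in
lemma q_eq_one (g : GL (Fin 2) K) : q g = 1 ↔ Sc g := by
  rw [sc_iff]
  exact QuotientGroup.eq_one_iff g

lemma sc_mkA (ζ x : Kˣ) : Sc (mkA ζ x x) := by
  refine ⟨?_, ?_, ?_⟩
  · rw [mkA_01]; simp
  · rw [mkA_10]; simp
  · rw [mkA_00, mkA_11]

lemma not_sc_S (ζ : Kˣ) : ¬ Sc (S ζ) := by
  intro h
  have := h.1
  rw [S_01] at this
  exact ζ.ne_zero this

omit [CharZero K] in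
lemma sc_one : Sc (1 : GL (Fin 2) K) := by simp [Sc]

omit [CharZero K] in
lemma unit_sq {x : Kˣ} (h : x * x = 1) : x = 1 ∨ x = -1 := by
  have h1 : (x : K) * x = 1 := by
    have := congrArg Units.val h
    simpa using this
  rcases mul_self_eq_one_iff.mp h1 with h2 | h2
  · left; exact Units.ext h2
  · right; exact Units.ext (by simpa using h2)

lemma class_mkA {ξ x y : Kˣ} (h : mkA ξ x y * mkA ξ x y = 1) (hn : ¬ Sc (mkA ξ x y)) :
    q (mkA ξ x y) = q (S ξ) := by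
  rw [mkA_mul, ← mkA_one ξ] at h
  obtain ⟨hx, hy⟩ := mkA_inj h
  rcases unit_sq hx with rfl | rfl <;> rcases unit_sq hy with rfl | rfl
  · exact absurd (sc_mkA ξ 1) hn
  · rfl
  · have h1 : mkA ξ (-1) 1 = mkA ξ (-1) (-1) * S ξ := by
      rw [S, mkA_mul]
      simp
    rw [h1, map_mul, (q_eq_one _).2 (sc_mkA ξ (-1)), one_mul]
  · exact absurd (sc_mkA ξ (-1)) hn

/-- The involutions attached to the four coordinates. -/
noncomputable def typ (ζ : Kˣ) : G4 K := ![S 1, S ζ, S ζ, S 1]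

lemma class_of {ζ : Kˣ} {h : G4 K} (hh : h ∈ T ζ) (h2 : h * h = 1) (i : Fin 4)
    (hn : ¬ Sc (h i)) : q (h i) = q (typ ζ i) := by
  obtain ⟨z, rfl⟩ := hh
  have h3 := congrFun h2 i
  rw [Pi.mul_apply, Pi.one_apply] at h3
  fin_cases i
  · exact class_mkA h3 hn
  · exact class_mkA h3 hn
  · exact class_mkA h3 hn
  · exact class_mkA h3 hn

lemma sc_pairs {ζ : Kˣ} {h : G4 K} (hh : h ∈ T ζ) : (Sc (h 0) ↔ Sc (h 3)) ∧ (Sc (h 1) ↔ Sc (h 2)) := by
  obtain ⟨z, rfl⟩ := hh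
  have h1 : q (par ζ z 0) * q (par ζ z 3) = 1 := by
    rw [par_0, par_3, ← map_mul, mkA_mul, mul_inv_cancel_left, mul_inv_cancel_left]
    exact (q_eq_one _).2 (sc_mkA _ _)
  have h2 : q (par ζ z 1) * q (par ζ z 2) = 1 := by
    rw [par_1, par_2, ← map_mul, mkA_mul, mul_comm (z 4), mul_inv_cancel_left, mul_comm (z 4),
      mul_inv_cancel_left]
    exact (q_eq_one _).2 (sc_mkA _ _)
  rw [← q_eq_one, ← q_eq_one, ← q_eq_one, ← q_eq_one]
  constructor
  · constructor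
    · intro h; rwa [h, one_mul] at h1
    · intro h; rwa [h, mul_one] at h1
  · constructor
    · intro h; rwa [h, one_mul] at h2
    · intro h; rwa [h, mul_one] at h2

/-- The diagonal matrix with entries `ζ⁻¹`, `ζ`. -/
def dg : Kˣ →* GL (Fin 2) K where
  toFun := fun ζ =>
    { val := !![((ζ⁻¹ : Kˣ) : K), 0; 0, (ζ : K)]
      inv := !![(ζ : K), 0; 0, ((ζ⁻¹ : Kˣ) : K)]
      val_inv := by
        ext i j; fin_cases i <;> fin_cases j <;> simp [Matrix.mul_apply, Fin.sum_univ_two]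
      inv_val := by
        ext i j; fin_cases i <;> fin_cases j <;> simp [Matrix.mul_apply, Fin.sum_univ_two] }
  map_one' := by apply gl_ext <;> simp
  map_mul' := by
    intro x y
    apply gl_ext <;> simp [Matrix.mul_apply, Fin.sum_univ_two, mul_comm]

omit [CharZero K] in
lemma sc_dg (ζ : Kˣ) : Sc (dg ζ) ↔ ζ ^ 2 = 1 := by
  constructor
  · rintro ⟨_, _, h⟩
    have h1 : ((ζ⁻¹ : Kˣ) : K) = (ζ : K) := h
    have h2 : ζ⁻¹ = ζ := Units.ext h1
    rw [pow_two]
    nth_rewrite 1 [← h2]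
    exact inv_mul_cancel ζ
  · intro h
    refine ⟨rfl, rfl, ?_⟩
    change ((ζ⁻¹ : Kˣ) : K) = (ζ : K)
    have h2 : ζ⁻¹ = ζ := by
      rw [inv_eq_iff_mul_eq_one, ← pow_two, h]
    rw [h2]

lemma S_mul_S (ζ : Kˣ) : S 1 * S ζ = dg ζ := by
  apply gl_ext
  all_goals
    rw [Units.val_mul, Matrix.mul_apply, Fin.sum_univ_two]
    simp only [S_00, S_01, S_10, S_11]
    simp [dg]

lemma S_mul_S' (ζ : Kˣ) : S ζ * S 1 = dg ζ⁻¹ := by
  apply gl_ext
  all_goals
    rw [Units.val_mul, Matrix.mul_apply, Fin.sum_univ_two]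
    simp only [S_00, S_01, S_10, S_11]
    simp [dg]

omit [CharZero K] in
lemma prod_lemma (p : G4 K) (hp : p 0 * p 1 * p 2 * p 3 = 1) (i j : Fin 4) (hij : i ≠ j)
    (h : ∀ k, k ≠ i → k ≠ j → q (p k) = 1) : q (p j) = (q (p i))⁻¹ := by
  have hq : q (p 0) * q (p 1) * q (p 2) * q (p 3) = 1 := by
    rw [← map_mul, ← map_mul, ← map_mul, hp, map_one]
  have key : q (p i) * q (p j) = 1 ∨ q (p j) * q (p i) = 1 := by
    have h0 := h 0
    have h1 := h 1
    have h2 := h 2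
    have h3 := h 3
    fin_cases i <;> fin_cases j <;> simp at hij h0 h1 h2 h3 <;> simp_all
  rcases key with h1 | h1
  · exact (inv_eq_of_mul_eq_one_right h1).symm
  · exact (inv_eq_of_mul_eq_one_left h1).symm

lemma invariant {ζ ζ' : Kˣ} (σ : G4 K ≃* G4 K)
    (hσ : σ '' X (1 : Fin 5 → GL (Fin 2) K) = X (1 : Fin 5 → GL (Fin 2) K))
    (hT : (T ζ).map σ.toMonoidHom = T ζ') (N : ℕ) (hN : ζ ^ (2 * N) = 1) : ζ' ^ (2 * N) = 1 := by
  obtain ⟨π, hπ⟩ := exists_perm σ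
  have ht : σ tt ∈ T ζ' := by
    rw [← hT]
    exact ⟨tt, tt_mem ζ, rfl⟩
  have hu : σ (uu ζ) ∈ T ζ' := by
    rw [← hT]
    exact ⟨uu ζ, uu_mem ζ, rfl⟩
  have hp : σ pp ∈ X (1 : Fin 5 → GL (Fin 2) K) := by
    rw [← hσ]
    refine ⟨pp, ?_, rfl⟩
    rw [X_one_iff]
    change S 1 * S 1 * 1 * 1 = 1
    rw [S_mul_self, mul_one, mul_one]
  rw [X_one_iff] at hp
  have ht2 : σ tt * σ tt = 1 := by
    rw [← map_mul]
    have : (tt : G4 K) * tt = 1 := by
      refine g4_ext ?_ ?_ ?_ ?_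
      · exact S_mul_self 1
      · exact mul_one 1
      · exact mul_one 1
      · exact S_mul_self 1
    rw [this, map_one]
  have hu2 : σ (uu ζ) * σ (uu ζ) = 1 := by
    rw [← map_mul]
    have : uu ζ * uu ζ = 1 := by
      refine g4_ext ?_ ?_ ?_ ?_
      · exact mul_one 1
      · exact S_mul_self ζ
      · exact S_mul_self ζ
      · exact mul_one 1
    rw [this, map_one]
  -- scalarity of the coordinates
  have t0 : ¬ Sc (σ tt (π 0)) := fun h => not_sc_S 1 ((hπ tt 0).1 h)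
  have t1 : Sc (σ tt (π 1)) := (hπ tt 1).2 sc_one
  have u1 : ¬ Sc (σ (uu ζ) (π 1)) := fun h => not_sc_S ζ ((hπ (uu ζ) 1).1 h)
  have p2 : Sc (σ pp (π 2)) := (hπ pp 2).2 sc_one
  have p3 : Sc (σ pp (π 3)) := (hπ pp 3).2 sc_one
  have hq0 : q (σ pp (π 0)) = q (σ tt (π 0)) := by
    have h1 : Sc (σ (pp⁻¹ * tt) (π 0)) := by
      rw [hπ]
      have h2 : ((pp⁻¹ * tt : G4 K)) 0 = 1 := by
        change (S 1)⁻¹ * S 1 = 1
        exact inv_mul_cancel _
      rw [h2]
      exact sc_one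
    rw [map_mul, map_inv, Pi.mul_apply, Pi.inv_apply, ← q_eq_one, map_mul, map_inv] at h1
    exact inv_mul_eq_one.mp h1
  have hq1 : q (σ pp (π 1)) = (q (σ pp (π 0)))⁻¹ := by
    refine prod_lemma (σ pp) hp (π 0) (π 1) (fun h => by simpa using π.injective h) ?_
    intro k hk0 hk1
    obtain ⟨l, rfl⟩ := π.surjective k
    fin_cases l
    · exact absurd rfl hk0
    · exact absurd rfl hk1
    · exact (q_eq_one _).2 p2
    · exact (q_eq_one _).2 p3
  have hpow : ((q (σ tt (π 0)))⁻¹ * q (σ (uu ζ) (π 1))) ^ N = 1 := by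
    have h1 : Sc (σ ((pp * uu ζ) ^ N) (π 1)) := by
      rw [hπ]
      have h2 : ((pp * uu ζ) ^ N : G4 K) 1 = dg (ζ ^ N) := by
        rw [Pi.pow_apply, map_pow, ← S_mul_S]
        rfl
      rw [h2, sc_dg, ← pow_mul, mul_comm N 2, hN]
    rw [map_pow, map_mul, Pi.pow_apply, Pi.mul_apply, ← q_eq_one, map_pow, map_mul, hq1, hq0] at h1
    exact h1
  rw [class_of ht ht2 _ t0, class_of hu hu2 _ u1] at hpow
  obtain ⟨e03, e12⟩ := sc_pairs ht
  -- the two coordinates have different types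
  have hcases : (typ ζ' (π 0) = S 1 ∧ typ ζ' (π 1) = S ζ') ∨
      (typ ζ' (π 0) = S ζ' ∧ typ ζ' (π 1) = S 1) := by
    generalize π 0 = a at t0
    generalize π 1 = b at t1
    fin_cases a <;> fin_cases b
    · exact absurd t1 t0
    · left; exact ⟨rfl, rfl⟩
    · left; exact ⟨rfl, rfl⟩
    · exact absurd (e03.2 t1) t0
    · right; exact ⟨rfl, rfl⟩
    · exact absurd t1 t0
    · exact absurd (e12.2 t1) t0
    · right; exact ⟨rfl, rfl⟩
    · right; exact ⟨rfl, rfl⟩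
    · exact absurd (e12.1 t1) t0
    · exact absurd t1 t0
    · right; exact ⟨rfl, rfl⟩
    · exact absurd (e03.1 t1) t0
    · left; exact ⟨rfl, rfl⟩
    · left; exact ⟨rfl, rfl⟩
    · exact absurd t1 t0
  rcases hcases with ⟨ha, hb⟩ | ⟨ha, hb⟩
  · rw [ha, hb, ← map_inv, S_inv, ← map_mul, S_mul_S, ← map_pow, ← map_pow, q_eq_one, sc_dg,
      ← pow_mul, mul_comm N 2] at hpow
    exact hpow
  · rw [ha, hb, ← map_inv, S_inv, ← map_mul, S_mul_S', ← map_pow, ← map_pow, q_eq_one, sc_dg,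
      ← pow_mul, mul_comm N 2, inv_pow, inv_eq_one] at hpow
    exact hpow

omit [CharZero K] in
lemma refl_mem_stabX : MulEquiv.refl (G4 K) ∈ stabX (1 : Fin 5 → GL (Fin 2) K) := by
  refine ⟨⟨fun i a b => IsRegular.entry i a b, fun i a b => IsRegular.entry i a b⟩, ?_⟩
  simp

end Two

lemma exists_zeta (K : Type u) [Field K] [IsAlgClosed K] [CharZero K] (k : ℕ) :
    ∃ ζ : Kˣ, ∀ N : ℕ, ζ ^ (2 * N) = 1 ↔ (k + 2) ∣ N := by
  have : NeZero (2 * (k + 2)) := ⟨by omega⟩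
  have : NeZero ((2 * (k + 2) : ℕ) : K) := NeZero.charZero
  obtain ⟨η, hη⟩ := HasEnoughRootsOfUnity.exists_primitiveRoot K (2 * (k + 2))
  refine ⟨(hη.isUnit (by omega)).unit, fun N => ?_⟩
  have h1 : (hη.isUnit (by omega)).unit ^ (2 * N) = 1 ↔ η ^ (2 * N) = 1 := by
    rw [Units.ext_iff]
    simp
  rw [h1, hη.pow_eq_one_iff_dvd]
  exact Nat.mul_dvd_mul_iff_left (by omega)

/-- Let `K` be an algebraically closed field of characteristic zero. For `n = 2`, `r = 4` and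
`M₁ = ⋯ = M₅ = 1` (which is semisimple) the maximal tori lying in `X` fall into infinitely many
`H`-orbits. -/
theorem result (K : Type u) [Field K] [IsAlgClosed K] [CharZero K] :
    (∀ i, IsSemisimpleMat ((1 : Fin 5 → GL (Fin 2) K) i)) ∧
      (torusOrbits (n := 2) (r := 4) (1 : Fin 5 → GL (Fin 2) K)).Infinite := by
  refine ⟨fun i => ⟨1, fun _ => 1, ?_⟩, ?_⟩
  · simp
  choose ζ hζ using exists_zeta K
  have hne : ∀ k, ζ k ^ 2 ≠ 1 := by
    intro k h
    have := (hζ k 1).1 (by simpa using h)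
    have := Nat.le_of_dvd (by norm_num) this
    omega
  refine Set.infinite_of_injective_forall_mem (f := fun k : ℕ => {T' : Subgroup (G4 K) |
    ∃ σ ∈ stabX (1 : Fin 5 → GL (Fin 2) K), T' = (T (ζ k)).map σ.toMonoidHom}) ?_ ?_
  · intro k l hkl
    have hdvd : ∀ a b : ℕ, ({T' : Subgroup (G4 K) |
        ∃ σ ∈ stabX (1 : Fin 5 → GL (Fin 2) K), T' = (T (ζ a)).map σ.toMonoidHom}) =
        ({T' : Subgroup (G4 K) |
        ∃ σ ∈ stabX (1 : Fin 5 → GL (Fin 2) K), T' = (T (ζ b)).map σ.toMonoidHom}) →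
        (a + 2) ∣ (b + 2) := by
      intro a b hab
      have h1 : T (ζ a) ∈ {T' : Subgroup (G4 K) |
          ∃ σ ∈ stabX (1 : Fin 5 → GL (Fin 2) K), T' = (T (ζ a)).map σ.toMonoidHom} := by
        refine ⟨MulEquiv.refl _, refl_mem_stabX, ?_⟩
        ext x
        simp
      rw [hab] at h1
      obtain ⟨σ, hσ, h2⟩ := h1
      rw [← hζ a]
      refine invariant σ hσ.2 h2.symm (b + 2) ?_
      rw [hζ b]
    have h1 := hdvd k l hkl
    have h2 := hdvd l k hkl.symm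
    have h3 := Nat.dvd_antisymm h1 h2
    omega
  · intro k
    exact ⟨T (ζ k), maximal_T (hne k), rfl⟩

end Pool.Agent.Results.MP_629379_al.InfinitelyManyOrbits
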